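import Mathlib

set_option autoImplicit false

/-! # Finite circular-order obstructions exist for `k`-colourable graphs only when `k = 1` -/

namespace Pool.Agent.Results.MP_c7ad22_co.OnlyOneColour

open Finset

/-- the points with positions `a`, `b`, `c` on a circle `0, 1, 2, …` are pairwise distinct and
appear in this cyclic order -/
def Cyc (a b c : ℕ) : Prop := (a < b ∧ b < c) ∨ (b < c ∧ c < a) ∨ (c < a ∧ a < b)

/-- a circularly ordered graph: the vertices are placed on a circle by the bijection `c` onto
`{0, …, n - 1}` -/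
structure COGraph where
  V : Type
  inst : Fintype V
  G : SimpleGraph V
  c : V ≃ Fin (@Fintype.card V inst)

instance (P : COGraph) : Fintype P.V := P.inst

/-- the circularly ordered graph `P` occurs in `(G, c)`: there is an induced copy, respecting the
cyclic order of all triples -/
def Occurs (P : COGraph) {V : Type} [Fintype V] (G : SimpleGraph V)
    (c : V ≃ Fin (Fintype.card V)) : Prop :=
  ∃ φ : P.V → V, Function.Injective φ ∧ (∀ u v, P.G.Adj u v ↔ G.Adj (φ u) (φ v)) ∧
    ∀ x y z, Cyc (P.c x) (P.c y) (P.c z) ↔ Cyc (c (φ x)) (c (φ y)) (c (φ z))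

/-- `G` is `F`-free circularly orderable -/
def FreeOrderable (F : Set COGraph) {V : Type} [Fintype V] (G : SimpleGraph V) : Prop :=
  ∃ c : V ≃ Fin (Fintype.card V), ∀ P ∈ F, ¬ Occurs P G c

/-- the class of `k`-colourable graphs is described by `F` -/
def Describes (F : Set COGraph) (k : ℕ) : Prop :=
  ∀ (V : Type) [Fintype V] (G : SimpleGraph V), G.Colorable k ↔ FreeOrderable F G

/-! ### A counting lemma -/

theorem count_avoid {A I : Type} [Fintype A] [Fintype I] [DecidableEq A] [DecidableEq I]
    (L : Finset I) (w : ℕ → I → A) (σ : I → Prop) (J : Finset ℕ)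
    (hinj : ∀ t ∈ J, ∀ a ∈ L, ∀ b ∈ L, w t a = w t b → a = b)
    (hdis : ∀ t ∈ J, ∀ t' ∈ J, t ≠ t' → ∀ a ∈ L, ∀ b ∈ L, w t a ≠ w t' b)
    (E : Finset (A → Bool))
    (hE : ∀ f ∈ E, ∀ t ∈ J, ¬ ∀ b ∈ L, (f (w t b) = true ↔ σ b)) :
    E.card * (2 ^ Fintype.card I) ^ J.card ≤
      (2 ^ Fintype.card I - 1) ^ J.card * 2 ^ Fintype.card A := by
  classical
  have key : ∀ J' : Finset ℕ, J' ⊆ J →
      (univ.filter (fun f : A → Bool => ∀ t ∈ J', ¬ ∀ b ∈ L, (f (w t b) = true ↔ σ b))).card *
        (2 ^ Fintype.card I) ^ J'.card ≤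
      (2 ^ Fintype.card I - 1) ^ J'.card * 2 ^ Fintype.card A := by
    intro J'
    induction J' using Finset.induction_on with
    | empty =>
      intro _
      simp
    | insert t J' ht ih =>
      intro hsub
      have ih' := ih (fun x hx => hsub (mem_insert_of_mem hx))
      have htJ : t ∈ J := hsub (mem_insert_self _ _)
      set E₀ := univ.filter (fun f : A → Bool => ∀ t ∈ J', ¬ ∀ b ∈ L, (f (w t b) = true ↔ σ b))
        with hE₀
      have h1 : univ.filter (fun f : A → Bool =>
          ∀ t' ∈ insert t J', ¬ ∀ b ∈ L, (f (w t' b) = true ↔ σ b)) =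
          E₀.filter (fun f => ¬ ∀ b ∈ L, (f (w t b) = true ↔ σ b)) := by
        ext f
        simp only [hE₀, mem_filter, mem_univ, true_and, mem_insert, forall_eq_or_imp]
        tauto
      rw [h1, card_insert_of_notMem ht]
      have h2 := card_filter_add_card_filter_not (s := E₀)
        (fun f => ∀ b ∈ L, (f (w t b) = true ↔ σ b))
      -- the removed functions
      have h3 : E₀.card ≤
          (E₀.filter (fun f => ∀ b ∈ L, (f (w t b) = true ↔ σ b))).card *
            2 ^ Fintype.card I := by
        let ow : (A → Bool) → (A → Bool) := fun f x =>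
          if ∃ b ∈ L, w t b = x then decide (∃ b ∈ L, w t b = x ∧ σ b) else f x
        have how1 : ∀ f x, (¬ ∃ b ∈ L, w t b = x) → ow f x = f x := by
          intro f x hx
          simp only [ow, if_neg hx]
        have how2 : ∀ f, ∀ b ∈ L, (ow f (w t b) = true ↔ σ b) := by
          intro f b hb
          have hex : ∃ b' ∈ L, w t b' = w t b := ⟨b, hb, rfl⟩
          simp only [ow, if_pos hex, decide_eq_true_eq]
          constructor
          · rintro ⟨b', hb', he, hσ⟩
            rwa [hinj t htJ b' hb' b hb he] at hσ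
          · intro hσ
            exact ⟨b, hb, rfl, hσ⟩
        have hcard : (E₀.filter (fun f => ∀ b ∈ L, (f (w t b) = true ↔ σ b))).card *
            2 ^ Fintype.card I =
            ((E₀.filter (fun f => ∀ b ∈ L, (f (w t b) = true ↔ σ b))) ×ˢ
              (univ : Finset (I → Bool))).card := by
          rw [card_product, card_univ]
          simp
        rw [hcard]
        apply card_le_card_of_injOn (fun f => (ow f, fun b => f (w t b)))
        · intro f hf
          rw [mem_coe] at hf ⊢
          rw [mem_product]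
          refine ⟨?_, mem_univ _⟩
          rw [mem_filter]
          refine ⟨?_, how2 f⟩
          simp only [hE₀, mem_filter, mem_univ, true_and] at hf ⊢
          intro t' ht' hcon
          refine hf t' ht' (fun b hb => ?_)
          rw [← hcon b hb, how1]
          rintro ⟨b', hb', he⟩
          refine hdis t htJ t' (hsub (mem_insert_of_mem ht')) ?_ b' hb' b hb he
          rintro rfl
          exact ht ht'
        · intro f _ g _ hfg
          obtain ⟨h4, h5⟩ := Prod.ext_iff.1 hfg
          funext x
          by_cases hx : ∃ b ∈ L, w t b = x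
          · obtain ⟨b, -, rfl⟩ := hx
            exact congrFun h5 b
          · have := congrFun h4 x
            simp only [how1 f x hx, how1 g x hx] at this
            exact this
      have hq : 1 ≤ 2 ^ Fintype.card I := Nat.one_le_two_pow
      obtain ⟨q, hq'⟩ : ∃ q, 2 ^ Fintype.card I = q + 1 := ⟨2 ^ Fintype.card I - 1, by omega⟩
      rw [hq'] at h3 ih' ⊢
      rw [Nat.add_sub_cancel] at ih' ⊢
      have h6 : (E₀.filter (fun f => ¬ ∀ b ∈ L, (f (w t b) = true ↔ σ b))).card * (q + 1) ≤
          q * E₀.card := by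
        nlinarith
      calc (E₀.filter (fun f => ¬ ∀ b ∈ L, (f (w t b) = true ↔ σ b))).card *
            (q + 1) ^ (J'.card + 1)
          = ((E₀.filter (fun f => ¬ ∀ b ∈ L, (f (w t b) = true ↔ σ b))).card * (q + 1)) *
              (q + 1) ^ J'.card := by ring
        _ ≤ (q * E₀.card) * (q + 1) ^ J'.card := Nat.mul_le_mul_right _ h6
        _ = q * (E₀.card * (q + 1) ^ J'.card) := by ring
        _ ≤ q * (q ^ J'.card * 2 ^ Fintype.card A) := Nat.mul_le_mul_left _ ih'
        _ = q ^ (J'.card + 1) * 2 ^ Fintype.card A := by ring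
  refine le_trans (Nat.mul_le_mul_right _ (card_le_card ?_)) (key J subset_rfl)
  intro f hf
  rw [mem_filter]
  exact ⟨mem_univ _, hE f hf⟩

theorem exists_R (q K : ℕ) : ∃ R : ℕ, K * q ^ R < (q + 1) ^ R := by
  have h1 : (q : ℝ) / (q + 1) < 1 := by
    rw [div_lt_one (by positivity)]
    linarith
  obtain ⟨R, hR⟩ := exists_pow_lt_of_lt_one (show (0 : ℝ) < 1 / (K + 1) by positivity) h1
  refine ⟨R, ?_⟩
  rw [div_pow, div_lt_div_iff₀ (by positivity) (by positivity)] at hR
  have h2 : ((K * q ^ R : ℕ) : ℝ) < (((q + 1) ^ R : ℕ) : ℝ) := by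
    push_cast
    have : (0 : ℝ) ≤ (q : ℝ) ^ R := by positivity
    nlinarith
  exact_mod_cast h2

/-! ### Universal multipartite graphs -/

/-- the class `j` of the colouring `κ` -/
def cls {A : Type} [Fintype A] {i : ℕ} (κ : A → Fin i) (j : Fin i) : Finset A :=
  univ.filter (fun x => κ x = j)

/-- for all choices of a pattern `H`, classes `c a` and pairwise disjoint sets `W a` in these
classes of density at least `1 / K`, there are representatives `w a ∈ W a` realising the pattern -/
def Univ (I : Type) {A : Type} [Fintype A] (G : SimpleGraph A) {i : ℕ} (κ : A → Fin i)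
    (K : ℕ) : Prop :=
  ∀ (H : I → I → Prop), (∀ a b, H a b → H b a) → ∀ (S : Finset I) (c : I → Fin i)
    (W : I → Finset A), (∀ a ∈ S, ∀ x ∈ W a, κ x = c a) →
    (∀ a ∈ S, (cls κ (c a)).card ≤ K * (W a).card) →
    (∀ a ∈ S, ∀ b ∈ S, a ≠ b → Disjoint (W a) (W b)) →
    ∃ w : I → A, (∀ a ∈ S, w a ∈ W a) ∧
      ∀ a ∈ S, ∀ b ∈ S, c a ≠ c b → (G.Adj (w a) (w b) ↔ H a b)

theorem exists_tuples {I A : Type} [Fintype I] [Fintype A] [Nonempty A] {G : SimpleGraph A}
    {i K : ℕ} {κ : A → Fin i} (hU : Univ I G κ (2 * K)) (r : ℕ)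
    (H : I → I → Prop) (hH : ∀ a b, H a b → H b a) (S : Finset I) (c : I → Fin i)
    (hM : ∀ a ∈ S, 2 * K * (r * Fintype.card I) ≤ (cls κ (c a)).card)
    (W : I → Finset A) (hW1 : ∀ a ∈ S, ∀ x ∈ W a, κ x = c a)
    (hW2 : ∀ a ∈ S, (cls κ (c a)).card ≤ K * (W a).card)
    (hW3 : ∀ a ∈ S, ∀ b ∈ S, a ≠ b → Disjoint (W a) (W b)) :
    ∃ w : ℕ → I → A, (∀ t < r, (∀ a ∈ S, w t a ∈ W a) ∧
      ∀ a ∈ S, ∀ b ∈ S, c a ≠ c b → (G.Adj (w t a) (w t b) ↔ H a b)) ∧
      ∀ t < r, ∀ t' < r, t ≠ t' → ∀ a ∈ S, ∀ b ∈ S, w t a ≠ w t' b := by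
  classical
  have key : ∀ s, s ≤ r → ∃ w : ℕ → I → A, (∀ t < s, (∀ a ∈ S, w t a ∈ W a) ∧
      ∀ a ∈ S, ∀ b ∈ S, c a ≠ c b → (G.Adj (w t a) (w t b) ↔ H a b)) ∧
      ∀ t < s, ∀ t' < s, t ≠ t' → ∀ a ∈ S, ∀ b ∈ S, w t a ≠ w t' b := by
    intro s
    induction s with
    | zero =>
      intro _
      exact ⟨fun _ _ => Classical.arbitrary A, fun t ht => absurd ht (by omega),
        fun t ht => absurd ht (by omega)⟩
    | succ s ih =>
      intro hs
      obtain ⟨w, hw1, hw2⟩ := ih (by omega)
      let Used : Finset A := (range s ×ˢ S).image (fun x => w x.1 x.2)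
      have hUsed : Used.card ≤ r * Fintype.card I := by
        refine card_image_le.trans ?_
        rw [card_product, card_range]
        exact Nat.mul_le_mul (by omega) (card_le_univ _)
      have hmem : ∀ t < s, ∀ a ∈ S, w t a ∈ Used := by
        intro t ht a ha
        exact mem_image.2 ⟨(t, a), mem_product.2 ⟨mem_range.2 ht, ha⟩, rfl⟩
      obtain ⟨w', hw'1, hw'2⟩ := hU H hH S c (fun a => W a \ Used)
        (fun a ha x hx => hW1 a ha x (mem_sdiff.1 hx).1)
        (by
          intro a ha
          have h1 := le_card_sdiff Used (W a)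
          have h2 := hW2 a ha
          have h3 := hM a ha
          have h4 : (W a).card ≤ (W a \ Used).card + r * Fintype.card I := by omega
          have h5 : K * (W a).card ≤ K * (W a \ Used).card + K * (r * Fintype.card I) := by
            rw [← Nat.mul_add]
            exact Nat.mul_le_mul_left _ h4
          have h6 : 2 * K * (r * Fintype.card I) = 2 * (K * (r * Fintype.card I)) := by ring
          have h7 : 2 * K * (W a \ Used).card = 2 * (K * (W a \ Used).card) := by ring
          omega)
        (fun a ha b hb hab => (hW3 a ha b hb hab).mono sdiff_subset sdiff_subset)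
      refine ⟨Function.update w s w', ?_, ?_⟩
      · intro t ht
        by_cases hts : t = s
        · subst hts
          rw [Function.update_self]
          exact ⟨fun a ha => (mem_sdiff.1 (hw'1 a ha)).1, hw'2⟩
        · rw [Function.update_of_ne hts]
          exact hw1 t (by omega)
      · intro t ht t' ht' htt a ha b hb
        by_cases hts : t = s <;> by_cases hts' : t' = s
        · exact absurd (hts.trans hts'.symm) htt
        · subst hts
          rw [Function.update_self, Function.update_of_ne hts']
          intro he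
          exact (mem_sdiff.1 (hw'1 a ha)).2 (he ▸ hmem t' (by omega) b hb)
        · subst hts'
          rw [Function.update_self, Function.update_of_ne hts]
          intro he
          exact (mem_sdiff.1 (hw'1 b hb)).2 (he ▸ hmem t (by omega) a ha)
        · rw [Function.update_of_ne hts, Function.update_of_ne hts']
          exact hw2 t (by omega) t' (by omega) htt a ha b hb
  exact key r le_rfl

/-- adding a class consisting of all the subsets -/
def ext {A : Type} (G : SimpleGraph A) : SimpleGraph (A ⊕ (A → Bool)) where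
  Adj x y := match x, y with
    | .inl a, .inl b => G.Adj a b
    | .inl a, .inr f => f a = true
    | .inr f, .inl a => f a = true
    | .inr _, .inr _ => False
  symm := ⟨by
    rintro (a | f) (b | g) h
    · exact G.adj_symm h
    · exact h
    · exact h
    · exact h⟩
  loopless := ⟨by
    rintro (a | f) h
    · exact G.loopless.irrefl _ h
    · exact h⟩

/-- the new colouring -/
def extκ {A : Type} {i : ℕ} (κ : A → Fin i) : A ⊕ (A → Bool) → Fin (i + 1)
  | .inl a => (κ a).castSucc
  | .inr _ => Fin.last i

theorem mem_cls {A : Type} [Fintype A] {i : ℕ} {κ : A → Fin i} {j : Fin i} {x : A} :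
    x ∈ cls κ j ↔ κ x = j := by
  simp [cls]

theorem card_cls_castSucc {A : Type} [Fintype A] [DecidableEq A] {i : ℕ} (κ : A → Fin i)
    (j : Fin i) : (cls (extκ κ) j.castSucc).card = (cls κ j).card := by
  have : cls (extκ κ) j.castSucc = (cls κ j).map ⟨Sum.inl, Sum.inl_injective⟩ := by
    ext x
    rw [mem_cls, mem_map]
    constructor
    · intro h
      rcases x with a | f
      · exact ⟨a, mem_cls.2 (Fin.castSucc_injective _ h), rfl⟩
      · exact absurd h (Fin.castSucc_lt_last j).ne'
    · rintro ⟨a, ha, rfl⟩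
      rw [mem_cls] at ha
      subst ha
      rfl
  rw [this, card_map]

theorem card_cls_last {A : Type} [Fintype A] [DecidableEq A] {i : ℕ} (κ : A → Fin i) :
    (cls (extκ κ) (Fin.last i)).card = 2 ^ Fintype.card A := by
  have : cls (extκ κ) (Fin.last i) =
      (univ : Finset (A → Bool)).map ⟨Sum.inr, Sum.inr_injective⟩ := by
    ext x
    rw [mem_cls, mem_map]
    constructor
    · intro h
      rcases x with a | f
      · exact absurd h (Fin.castSucc_lt_last (κ a)).ne
      · exact ⟨f, mem_univ _, rfl⟩
    · rintro ⟨a, ha, rfl⟩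
      rfl
  rw [this, card_map, card_univ]
  simp

theorem exists_univ (I : Type) [Fintype I] [DecidableEq I] : ∀ (i K M : ℕ),
    ∃ (A : Type) (_ : Fintype A) (G : SimpleGraph A) (κ : A → Fin (i + 1)), Nonempty A ∧
      (∀ x y, G.Adj x y → κ x ≠ κ y) ∧ (∀ j, M ≤ (cls κ j).card) ∧ Univ I G κ K := by
  classical
  intro i
  induction i with
  | zero =>
    intro K M
    refine ⟨Fin (M + 1), inferInstance, ⊥, fun _ => 0, ⟨0⟩, fun x y h => h.elim, ?_, ?_⟩
    · intro j
      have : cls (fun _ : Fin (M + 1) => (0 : Fin (0 + 1))) j = univ := by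
        ext x
        simp only [cls, mem_filter, mem_univ, true_and]
        simp
        exact Subsingleton.elim _ _
      rw [this, card_univ, Fintype.card_fin]
      omega
    · intro H hH S c W hW1 hW2 hW3
      have hex : ∀ a, ∃ x : Fin (M + 1), a ∈ S → x ∈ W a := by
        intro a
        by_cases ha : a ∈ S
        swap
        · exact ⟨0, fun h => absurd h ha⟩
        have h1 := hW2 a ha
        have : cls (fun _ : Fin (M + 1) => (0 : Fin (0 + 1))) (c a) = univ := by
          ext x
          simp only [cls, mem_filter, mem_univ, true_and]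
          simp
          exact Subsingleton.elim _ _
        rw [this, card_univ, Fintype.card_fin] at h1
        have h2 : (W a).Nonempty := by
          rw [← card_pos]
          by_contra h0
          have : (W a).card = 0 := by omega
          rw [this] at h1
          omega
        obtain ⟨x, hx⟩ := h2
        exact ⟨x, fun _ => hx⟩
      choose w hw using hex
      refine ⟨w, hw, ?_⟩
      · intro a _ b _ hab
        exact absurd (Subsingleton.elim (α := Fin 1) _ _) hab
  | succ i ih =>
    intro K M
    obtain ⟨q, hq⟩ : ∃ q, 2 ^ Fintype.card I = q + 1 :=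
      ⟨2 ^ Fintype.card I - 1, by have := Nat.one_le_two_pow (n := Fintype.card I); omega⟩
    obtain ⟨R, hR⟩ := exists_R q K
    obtain ⟨r, hr⟩ : ∃ r, r = Fintype.card I * R + 1 := ⟨_, rfl⟩
    obtain ⟨A, hA, G, κ, hne, hproper, hM, hU⟩ := ih (2 * K)
      (M + 2 * K * (r * Fintype.card I))
    refine ⟨A ⊕ (A → Bool), inferInstance, ext G, extκ κ, ⟨Sum.inr fun _ => true⟩, ?_, ?_, ?_⟩
    · rintro (a | f) (b | g) h
      · intro he
        exact hproper a b h (Fin.castSucc_injective _ he)
      · exact (Fin.castSucc_lt_last _).ne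
      · exact (Fin.castSucc_lt_last _).ne'
      · exact h.elim
    · intro j
      refine Fin.lastCases ?_ (fun j => ?_) j
      · rw [card_cls_last]
        have h1 := hM 0
        have h2 : (cls κ 0).card ≤ Fintype.card A := card_le_univ _
        have h3 : Fintype.card A < 2 ^ Fintype.card A := Nat.lt_two_pow_self
        omega
      · rw [card_cls_castSucc]
        have := hM j
        omega
    · intro H hH S c W hW1 hW2 hW3
      -- low and high indices
      let c' : I → Fin (i + 1) := fun a => if h : c a ≠ Fin.last (i + 1) then (c a).castPred h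
        else 0
      have hc' : ∀ a, c a ≠ Fin.last (i + 1) → c a = (c' a).castSucc := by
        intro a ha
        simp only [c', dif_pos ha]
        simp
      let Lo : Finset I := S.filter (fun a => c a ≠ Fin.last (i + 1))
      let W' : I → Finset A := fun a => univ.filter (fun x => Sum.inl x ∈ W a)
      have hLo : ∀ a ∈ Lo, a ∈ S ∧ c a = (c' a).castSucc := by
        intro a ha
        obtain ⟨h1, h2⟩ := mem_filter.1 ha
        exact ⟨h1, hc' a h2⟩
      have hW'1 : ∀ a ∈ Lo, ∀ x ∈ W' a, κ x = c' a := by
        intro a ha x hx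
        obtain ⟨h1, h2⟩ := hLo a ha
        have h3 := hW1 a h1 _ (mem_filter.1 hx).2
        rw [h2] at h3
        exact Fin.castSucc_injective _ h3
      have hW'c : ∀ a ∈ Lo, (W' a).card = (W a).card := by
        intro a ha
        obtain ⟨h1, h2⟩ := hLo a ha
        rw [← card_map ⟨Sum.inl, Sum.inl_injective⟩ (s := W' a) (β := A ⊕ (A → Bool))]
        congr 1
        ext x
        rcases x with x | f
        · simp [W']
        · simp only [mem_map, Function.Embedding.coeFn_mk, reduceCtorEq, and_false, exists_false,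
            false_iff]
          intro hf
          have h3 := hW1 a h1 _ hf
          rw [h2] at h3
          exact (Fin.castSucc_lt_last (c' a)).ne h3.symm
      obtain ⟨w, hw1, hw2⟩ := exists_tuples hU r H hH Lo c'
        (fun a _ => by have := hM (c' a); omega) W' hW'1
        (by
          intro a ha
          rw [hW'c a ha]
          have h1 := hW2 a (hLo a ha).1
          rw [(hLo a ha).2, card_cls_castSucc] at h1
          exact h1)
        (by
          intro a ha b hb hab
          have h1 := hW3 a (hLo a ha).1 b (hLo b hb).1 hab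
          rw [disjoint_left] at h1 ⊢
          intro x hx hx'
          exact h1 (mem_filter.1 hx).2 (mem_filter.1 hx').2)
      -- the high indices
      let E : I → Finset (A → Bool) := fun a => univ.filter (fun f => Sum.inr f ∈ W a)
      have hEc : ∀ a ∈ S, c a = Fin.last (i + 1) → (E a).card = (W a).card := by
        intro a ha hca
        rw [← card_map ⟨Sum.inr, Sum.inr_injective⟩ (s := E a) (β := A ⊕ (A → Bool))]
        congr 1
        ext x
        rcases x with x | f
        · simp only [mem_map, Function.Embedding.coeFn_mk, reduceCtorEq, and_false, exists_false,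
            false_iff]
          intro hf
          have h3 := hW1 a ha _ hf
          rw [hca] at h3
          exact (Fin.castSucc_lt_last (κ x)).ne h3
        · simp [E]
      let bad : I → Finset ℕ := fun a => (range r).filter
        (fun t => ∀ f ∈ E a, ¬ ∀ b ∈ Lo, (f (w t b) = true ↔ H b a))
      have hbad : ∀ a ∈ S, c a = Fin.last (i + 1) → (bad a).card < R := by
        intro a ha hca
        by_contra hcon
        push Not at hcon
        obtain ⟨J, hJ, hJR⟩ := exists_subset_card_eq hcon
        have hJr : ∀ t ∈ J, t < r := fun t ht => mem_range.1 (mem_filter.1 (hJ ht)).1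
        have h1 := count_avoid Lo w (fun b => H b a) J
          (by
            intro t ht x hx y hy hxy
            by_contra hne
            have h1 := hW3 x (hLo x hx).1 y (hLo y hy).1 hne
            rw [disjoint_left] at h1
            have h2 := (hw1 t (hJr t ht)).1 x hx
            have h3 := (hw1 t (hJr t ht)).1 y hy
            rw [hxy] at h2
            exact h1 (mem_filter.1 h2).2 (mem_filter.1 h3).2)
          (fun t ht t' ht' htt x hx y hy => hw2 t (hJr t ht) t' (hJr t' ht') htt x hx y hy)
          (E a) (fun f hf t ht => (mem_filter.1 (hJ ht)).2 f hf)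
        rw [hJR, hq, Nat.add_sub_cancel] at h1
        have h2 := hW2 a ha
        rw [hca, card_cls_last, ← hEc a ha hca] at h2
        have h3 : 2 ^ Fintype.card A * (q + 1) ^ R ≤ 2 ^ Fintype.card A * (K * q ^ R) := by
          calc 2 ^ Fintype.card A * (q + 1) ^ R ≤ (K * (E a).card) * (q + 1) ^ R :=
                Nat.mul_le_mul_right _ h2
            _ = K * ((E a).card * (q + 1) ^ R) := by ring
            _ ≤ K * (q ^ R * 2 ^ Fintype.card A) := Nat.mul_le_mul_left _ h1
            _ = 2 ^ Fintype.card A * (K * q ^ R) := by ring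
        have h4 := Nat.le_of_mul_le_mul_left h3 (by positivity)
        omega
      -- a good tuple
      obtain ⟨t, htr, ht⟩ : ∃ t < r, ∀ a ∈ S, c a = Fin.last (i + 1) → t ∉ bad a := by
        by_contra hcon
        push Not at hcon
        have h1 : range r ⊆ (S.filter (fun a => c a = Fin.last (i + 1))).biUnion bad := by
          intro t ht
          obtain ⟨a, ha, hca, hta⟩ := hcon t (mem_range.1 ht)
          exact mem_biUnion.2 ⟨a, mem_filter.2 ⟨ha, hca⟩, hta⟩
        have h2 := (card_le_card h1).trans (card_biUnion_le_card_mul _ _ R (by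
          intro a ha
          obtain ⟨h1, h2⟩ := mem_filter.1 ha
          exact (hbad a h1 h2).le))
        rw [card_range] at h2
        have h3 : (S.filter (fun a => c a = Fin.last (i + 1))).card ≤ Fintype.card I :=
          card_le_univ _
        have h4 := Nat.mul_le_mul_right R h3
        omega
      have hf : ∀ a ∈ S, c a = Fin.last (i + 1) → ∃ f ∈ E a, ∀ b ∈ Lo,
          (f (w t b) = true ↔ H b a) := by
        intro a ha hca
        have h1 : ¬ ∀ f ∈ E a, ¬ ∀ b ∈ Lo, (f (w t b) = true ↔ H b a) := fun hcon =>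
          ht a ha hca (mem_filter.2 ⟨mem_range.2 htr, hcon⟩)
        by_contra h2
        exact h1 (fun f hf hb => h2 ⟨f, hf, hb⟩)
      refine ⟨fun a => if h : a ∈ S ∧ c a = Fin.last (i + 1) then
        Sum.inr (hf a h.1 h.2).choose else Sum.inl (w t a), ?_, ?_⟩
      · intro a ha
        by_cases hca : c a = Fin.last (i + 1)
        · simp only [dif_pos (show a ∈ S ∧ c a = Fin.last (i + 1) from ⟨ha, hca⟩)]
          exact (mem_filter.1 (hf a ha hca).choose_spec.1).2
        · simp only [dif_neg (show ¬ (a ∈ S ∧ c a = Fin.last (i + 1)) from fun h => hca h.2)]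
          exact (mem_filter.1 ((hw1 t htr).1 a (mem_filter.2 ⟨ha, hca⟩))).2
      · intro a ha b hb hab
        by_cases hca : c a = Fin.last (i + 1) <;> by_cases hcb : c b = Fin.last (i + 1)
        · exact absurd (hca.trans hcb.symm) hab
        · simp only [dif_pos (show a ∈ S ∧ c a = Fin.last (i + 1) from ⟨ha, hca⟩),
            dif_neg (show ¬ (b ∈ S ∧ c b = Fin.last (i + 1)) from fun h => hcb h.2)]
          have h1 := (hf a ha hca).choose_spec.2 b (mem_filter.2 ⟨hb, hcb⟩)
          exact h1.trans ⟨hH _ _, hH _ _⟩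
        · simp only [dif_neg (show ¬ (a ∈ S ∧ c a = Fin.last (i + 1)) from fun h => hca h.2),
            dif_pos (show b ∈ S ∧ c b = Fin.last (i + 1) from ⟨hb, hcb⟩)]
          exact (hf b hb hcb).choose_spec.2 a (mem_filter.2 ⟨ha, hca⟩)
        · simp only [dif_neg (show ¬ (a ∈ S ∧ c a = Fin.last (i + 1)) from fun h => hca h.2),
            dif_neg (show ¬ (b ∈ S ∧ c b = Fin.last (i + 1)) from fun h => hcb h.2)]
          refine (hw1 t htr).2 a (mem_filter.2 ⟨ha, hca⟩) b (mem_filter.2 ⟨hb, hcb⟩) ?_
          intro h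
          rw [hc' a hca, hc' b hcb, h] at hab
          exact hab rfl

/-! ### Intervals -/

theorem exists_init {α : Type} [LinearOrder α] (s : ℕ) (U : Finset α) (h : s ≤ U.card) :
    ∃ I ⊆ U, I.card = s ∧ ∀ x ∈ I, ∀ y ∈ U, y ∉ I → x < y := by
  induction s with
  | zero => exact ⟨∅, empty_subset _, rfl, by simp⟩
  | succ s ih =>
    obtain ⟨I, hI, hIs, hlt⟩ := ih (by omega)
    have hne : (U \ I).Nonempty := by
      rw [← card_pos, card_sdiff_of_subset hI]
      omega
    obtain ⟨m, hm, hmin⟩ := exists_min_image (U \ I) id hne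
    rw [mem_sdiff] at hm
    refine ⟨insert m I, insert_subset hm.1 hI, ?_, ?_⟩
    · rw [card_insert_of_notMem hm.2, hIs]
    · intro x hx y hy hyI
      rw [mem_insert, not_or] at hyI
      rcases mem_insert.1 hx with rfl | hx
      · exact lt_of_le_of_ne (hmin y (mem_sdiff.2 ⟨hy, hyI.2⟩)) (fun h => hyI.1 h.symm)
      · exact hlt x hx y hy hyI.2

theorem exists_chunks {α : Type} [LinearOrder α] (s : ℕ) : ∀ (q : ℕ) (U : Finset α),
    q * s ≤ U.card → ∃ ch : ℕ → Finset α, (∀ t < q, ch t ⊆ U ∧ (ch t).card = s) ∧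
      ∀ t t', t < t' → t' < q → ∀ x ∈ ch t, ∀ y ∈ ch t', x < y := by
  intro q
  induction q with
  | zero =>
    intro U _
    exact ⟨fun _ => ∅, fun t ht => absurd ht (by omega), fun t t' _ ht' => absurd ht' (by omega)⟩
  | succ q ih =>
    intro U hU
    have h1 : (q + 1) * s = q * s + s := by ring
    obtain ⟨I, hI, hIs, hlt⟩ := exists_init s U (by omega)
    obtain ⟨ch, hch1, hch2⟩ := ih (U \ I) (by rw [card_sdiff_of_subset hI]; omega)
    refine ⟨fun t => Nat.casesOn t I ch, ?_, ?_⟩
    · intro t ht
      rcases t with _ | t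
      · exact ⟨hI, hIs⟩
      · exact ⟨(hch1 t (by omega)).1.trans sdiff_subset, (hch1 t (by omega)).2⟩
    · intro t t' htt ht' x hx y hy
      rcases t' with _ | t'
      · omega
      rcases t with _ | t
      · have h2 := mem_sdiff.1 ((hch1 t' (by omega)).1 hy)
        exact hlt x hx y h2.1 h2.2
      · exact hch2 t t' (by omega) (by omega) x hx y hy

theorem greedy {α ι : Type} [LinearOrder α] [DecidableEq ι] [Nonempty ι] (s : ι → ℕ)
    (hs : ∀ j, 1 ≤ s j) : ∀ (q : ℕ) (J : Finset ι) (U : ι → Finset α), J.card = q →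
    (∀ j ∈ J, q * s j ≤ (U j).card) → ∃ (π : ℕ → ι) (B : ℕ → Finset α),
      (∀ i < q, π i ∈ J ∧ B i ⊆ U (π i) ∧ (B i).card = s (π i)) ∧
      (∀ i i', i < i' → i' < q → ∀ x ∈ B i, ∀ y ∈ B i', x < y) ∧
      ∀ i i', i < i' → i' < q → π i ≠ π i' := by
  intro q
  induction q with
  | zero =>
    intro J U _ _
    exact ⟨fun _ => Classical.arbitrary ι, fun _ => ∅, fun i hi => absurd hi (by omega),
      fun i i' _ hi' => absurd hi' (by omega), fun i i' _ hi' => absurd hi' (by omega)⟩
  | succ q ih =>
    intro J U hJ hU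
    have hexI : ∀ j, ∃ I : Finset α, j ∈ J → I ⊆ U j ∧ I.card = s j ∧
        ∀ x ∈ I, ∀ y ∈ U j, y ∉ I → x < y := by
      intro j
      by_cases hj : j ∈ J
      · have h1 := hU j hj
        have h2 : (q + 1) * s j = q * s j + s j := by ring
        obtain ⟨I, hI⟩ := exists_init (s j) (U j) (by omega)
        exact ⟨I, fun _ => hI⟩
      · exact ⟨∅, fun h => absurd h hj⟩
    choose I hI using hexI
    have hα : Nonempty α := by
      obtain ⟨j, hj⟩ : J.Nonempty := by rw [← card_pos]; omega
      have h1 := (hI j hj).2.1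
      have h2 := hs j
      obtain ⟨x, -⟩ : (I j).Nonempty := by rw [← card_pos]; omega
      exact ⟨x⟩
    have hext : ∀ j, ∃ t : α, j ∈ J → t ∈ I j ∧ ∀ x ∈ I j, x ≤ t := by
      intro j
      by_cases hj : j ∈ J
      · have h1 := (hI j hj).2.1
        have h2 := hs j
        obtain ⟨t, ht, ht'⟩ := exists_max_image (I j) id (by rw [← card_pos]; omega)
        exact ⟨t, fun _ => ⟨ht, ht'⟩⟩
      · exact ⟨Classical.arbitrary α, fun h => absurd h hj⟩
    choose t ht using hext
    obtain ⟨j₀, hj₀, hmin⟩ := exists_min_image J t (by rw [← card_pos]; omega)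
    obtain ⟨π, B, h1, h2, h3⟩ := ih (J.erase j₀) (fun j => (U j).filter (fun y => t j₀ < y))
      (by rw [card_erase_of_mem hj₀, hJ]; rfl)
      (by
        intro j hj
        have hjJ := (mem_erase.1 hj).2
        have h1 : U j ⊆ (U j).filter (fun y => t j₀ < y) ∪ I j := by
          intro y hy
          rw [mem_union, mem_filter]
          by_cases hyI : y ∈ I j
          · exact Or.inr hyI
          · exact Or.inl ⟨hy, lt_of_le_of_lt (hmin j hjJ)
              ((hI j hjJ).2.2 _ (ht j hjJ).1 y hy hyI)⟩
        have h2 := (card_le_card h1).trans (card_union_le _ _)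
        rw [(hI j hjJ).2.1] at h2
        have h3 := hU j hjJ
        have h4 : (q + 1) * s j = q * s j + s j := by ring
        omega)
    refine ⟨fun i => Nat.casesOn i j₀ π, fun i => Nat.casesOn i (I j₀) B, ?_, ?_, ?_⟩
    · intro i hi
      rcases i with _ | i
      · exact ⟨hj₀, (hI j₀ hj₀).1, (hI j₀ hj₀).2.1⟩
      · obtain ⟨h4, h5, h6⟩ := h1 i (by omega)
        exact ⟨(mem_erase.1 h4).2, h5.trans (filter_subset _ _), h6⟩
    · intro i i' hii hi' x hx y hy
      rcases i' with _ | i'
      · omega
      rcases i with _ | i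
      · have h4 := (mem_filter.1 ((h1 i' (by omega)).2.1 hy)).2
        exact lt_of_le_of_lt ((ht j₀ hj₀).2 x hx) h4
      · exact h2 i i' (by omega) (by omega) x hx y hy
    · intro i i' hii hi'
      rcases i' with _ | i'
      · omega
      rcases i with _ | i
      · exact fun h => (mem_erase.1 (h1 i' (by omega)).1).1 h.symm
      · exact h3 i i' (by omega) (by omega)

/-! ### Patterns consisting of `k` consecutive independent arcs are unavoidable -/

theorem occurs_of_arcs (k : ℕ) (hk : 1 ≤ k) (I : Type) [Fintype I] (H : SimpleGraph I) (n : ℕ)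
    (hn : 1 ≤ n) (pos : I → ℕ) (hinj : Function.Injective pos) (hpos : ∀ a, pos a < n)
    (arc : I → ℕ) (harc : ∀ a, arc a < k) (hmono : ∀ a b, pos a < pos b → arc a ≤ arc b)
    (hadj : ∀ a b, H.Adj a b → arc a ≠ arc b) :
    ∃ (A : Type) (_ : Fintype A) (G : SimpleGraph A), G.Colorable k ∧
      ∀ c : A ≃ Fin (Fintype.card A), ∃ w : I → A, Function.Injective w ∧
        (∀ a b, H.Adj a b ↔ G.Adj (w a) (w b)) ∧ ∀ a b, pos a < pos b → c (w a) < c (w b) := by
  classical
  obtain ⟨i, rfl⟩ : ∃ i, k = i + 1 := ⟨k - 1, by omega⟩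
  have hkn : 0 < (i + 1) * n := by positivity
  obtain ⟨A, hA, G, κ, hne, hproper, hM, hU⟩ := exists_univ I i (2 * ((i + 1) * n)) ((i + 1) * n)
  refine ⟨A, hA, G, ⟨SimpleGraph.Coloring.mk κ (fun {x y} h => hproper x y h)⟩, ?_⟩
  intro c
  let s' : Fin (i + 1) → ℕ := fun j => (cls κ j).card / ((i + 1) * n)
  have hs' : ∀ j, 1 ≤ s' j := fun j => (Nat.one_le_div_iff hkn).2 (hM j)
  have hs'K : ∀ j, (cls κ j).card ≤ 2 * ((i + 1) * n) * s' j := by
    intro j
    have h1 := Nat.lt_div_mul_add hkn (a := (cls κ j).card)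
    have h2 := hs' j
    have h3 : (i + 1) * n ≤ s' j * ((i + 1) * n) := Nat.le_mul_of_pos_left _ h2
    calc (cls κ j).card ≤ s' j * ((i + 1) * n) + (i + 1) * n := h1.le
      _ ≤ s' j * ((i + 1) * n) + s' j * ((i + 1) * n) := by omega
      _ = 2 * ((i + 1) * n) * s' j := by ring
  have hs'le : ∀ j, (i + 1) * (n * s' j) ≤ (cls κ j).card := by
    intro j
    have h1 := Nat.div_mul_le_self (cls κ j).card ((i + 1) * n)
    calc (i + 1) * (n * s' j) = s' j * ((i + 1) * n) := by ring
      _ ≤ _ := h1
  obtain ⟨π, B, hB1, hB2, hB3⟩ := greedy (α := Fin (Fintype.card A)) (fun j => n * s' j)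
    (fun j => Nat.mul_pos hn (hs' j)) (i + 1) univ (fun j => (cls κ j).map c.toEmbedding)
    (by simp) (by
      intro j _
      rw [card_map]
      exact hs'le j)
  have hch : ∀ r, ∃ ch : ℕ → Finset (Fin (Fintype.card A)), r < i + 1 →
      (∀ t < n, ch t ⊆ B r ∧ (ch t).card = s' (π r)) ∧
        ∀ t t', t < t' → t' < n → ∀ x ∈ ch t, ∀ y ∈ ch t', x < y := by
    intro r
    by_cases hr : r < i + 1
    · obtain ⟨ch, hch⟩ := exists_chunks (s' (π r)) n (B r) (by rw [(hB1 r hr).2.2])
      exact ⟨ch, fun _ => hch⟩
    · exact ⟨fun _ => ∅, fun h => absurd h hr⟩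
  choose ch hch using hch
  let W : I → Finset A := fun a => (ch (arc a) (pos a)).map c.symm.toEmbedding
  have hW : ∀ a x, x ∈ W a → c x ∈ ch (arc a) (pos a) := by
    intro a x hx
    obtain ⟨y, hy, rfl⟩ := mem_map.1 hx
    simpa using hy
  have hWlt : ∀ a b, pos a < pos b → ∀ x ∈ W a, ∀ y ∈ W b, c x < c y := by
    intro a b hab x hx y hy
    have h1 := hW a x hx
    have h2 := hW b y hy
    rcases Nat.lt_or_ge (arc a) (arc b) with h | h
    · exact hB2 _ _ h (harc b) _ (((hch _ (harc a)).1 _ (hpos a)).1 h1) _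
        (((hch _ (harc b)).1 _ (hpos b)).1 h2)
    · have h3 := hmono a b hab
      have h4 : arc a = arc b := by omega
      rw [h4] at h1
      exact (hch _ (harc b)).2 _ _ hab (hpos b) _ h1 _ h2
  obtain ⟨w, hw1, hw2⟩ := hU (fun a b => H.Adj a b) (fun a b h => h.symm) univ
    (fun a => π (arc a)) W
    (by
      intro a _ x hx
      have h1 := (hB1 _ (harc a)).2.1 (((hch _ (harc a)).1 _ (hpos a)).1 (hW a x hx))
      obtain ⟨y, hy, hyx⟩ := mem_map.1 h1
      have : y = x := c.injective hyx
      subst this
      exact mem_cls.1 hy)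
    (by
      intro a _
      rw [card_map, ((hch _ (harc a)).1 _ (hpos a)).2]
      exact hs'K _)
    (by
      intro a _ b _ hab
      rw [disjoint_left]
      intro x hx hx'
      rcases Nat.lt_or_gt_of_ne (fun h => hab (hinj h)) with h | h
      · exact lt_irrefl _ (hWlt a b h x hx x hx')
      · exact lt_irrefl _ (hWlt b a h x hx' x hx))
  have hlt : ∀ a b, pos a < pos b → c (w a) < c (w b) := fun a b hab =>
    hWlt a b hab _ (hw1 a (mem_univ a)) _ (hw1 b (mem_univ b))
  refine ⟨w, ?_, ?_, hlt⟩
  · intro a b hab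
    by_contra hne'
    rcases Nat.lt_or_gt_of_ne (fun h => hne' (hinj h)) with h | h
    · have := hlt a b h
      rw [hab] at this
      exact lt_irrefl _ this
    · have := hlt b a h
      rw [hab] at this
      exact lt_irrefl _ this
  · intro a b
    by_cases hab : π (arc a) = π (arc b)
    · have h1 : arc a = arc b := by
        by_contra hne'
        rcases Nat.lt_or_gt_of_ne hne' with h | h
        · exact hB3 _ _ h (harc b) hab
        · exact hB3 _ _ h (harc a) hab.symm
      constructor
      · intro h
        exact absurd h1 (hadj a b h)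
      · intro h
        refine absurd ?_ (hproper _ _ h)
        have hκ : ∀ a, κ (w a) = π (arc a) := by
          intro a
          have h1 := (hB1 _ (harc a)).2.1 (((hch _ (harc a)).1 _ (hpos a)).1
            (hW a _ (hw1 a (mem_univ a))))
          obtain ⟨y, hy, hyx⟩ := mem_map.1 h1
          have : y = w a := c.injective hyx
          rw [← this]
          exact mem_cls.1 hy
        rw [hκ, hκ, hab]
    · exact (hw2 a (mem_univ a) b (mem_univ b) hab).symm

/-! ### Circular cliques -/

/-- the circular clique `K_{n/d}`: two vertices are adjacent when their circular distance is at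
least `d` -/
def CC (n d : ℕ) : SimpleGraph (Fin n) where
  Adj a b := (a.1 < b.1 ∧ d ≤ b.1 - a.1 ∧ b.1 - a.1 + d ≤ n) ∨
    (b.1 < a.1 ∧ d ≤ a.1 - b.1 ∧ a.1 - b.1 + d ≤ n)
  symm := ⟨fun _ _ h => h.symm⟩
  loopless := ⟨fun _ h => by rcases h with h | h <;> exact lt_irrefl _ h.1⟩

theorem CC_not_colorable (k d : ℕ) (hk : 2 ≤ k) (hd : 1 ≤ d) :
    ¬ (CC (k * d + 1) d).Colorable k := by
  classical
  rintro ⟨f⟩
  have h2d : 2 * d ≤ k * d := Nat.mul_le_mul_right _ hk
  obtain ⟨j, -, hj⟩ := Finset.exists_lt_card_fiber_of_mul_lt_card_of_maps_to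
    (s := (univ : Finset (Fin (k * d + 1)))) (t := (univ : Finset (Fin k))) (f := fun a => f a)
    (n := d) (fun _ _ => mem_univ _) (by simp)
  set S := univ.filter (fun a => f a = j) with hS
  have hind : ∀ a ∈ S, ∀ b ∈ S, ¬ (CC (k * d + 1) d).Adj a b := by
    intro a ha b hb hab
    exact f.valid hab ((mem_filter.1 ha).2.trans (mem_filter.1 hb).2.symm)
  obtain ⟨x, hx, hmin⟩ := exists_min_image S id (by rw [← card_pos]; omega)
  have hcard : S.card ≤ (range d).card := by
    apply card_le_card_of_injOn (fun y => if y.1 - x.1 < d then y.1 - x.1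
      else y.1 - x.1 - (k * d + 1 - d))
    · intro y hy
      have h1 : x.1 ≤ y.1 := hmin y hy
      have h2 := y.2
      rw [mem_coe, mem_range]
      beta_reduce
      split_ifs with h
      · exact h
      · omega
    · intro y hy z hz hyz
      have hy1 : x.1 ≤ y.1 := hmin y hy
      have hz1 : x.1 ≤ z.1 := hmin z hz
      have hy2 := y.2
      have hz2 := z.2
      have h1 := hind x hx y hy
      have h2 := hind x hx z hz
      have h3 := hind y hy z hz
      simp only [CC, not_or, not_and] at h1 h2 h3
      simp only at hyz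
      apply Fin.ext
      split_ifs at hyz with h4 h5 h5
      · omega
      · omega
      · omega
      · omega
  rw [card_range] at hcard
  omega

/-! ### The theorem -/

theorem not_describes (k : ℕ) (hk : 2 ≤ k) (F : Set COGraph) (hF : F.Finite) :
    ¬ Describes F k := by
  classical
  intro hD
  obtain ⟨m, hm⟩ : ∃ m, ∀ P ∈ F, Fintype.card P.V ≤ m := by
    obtain ⟨m, hm⟩ := (hF.image (fun P : COGraph => Fintype.card P.V)).bddAbove
    exact ⟨m, fun P hP => hm ⟨P, hP, rfl⟩⟩
  obtain ⟨d, hd⟩ : ∃ d, d = m + 1 := ⟨_, rfl⟩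
  obtain ⟨n, hn⟩ : ∃ n, n = k * d + 1 := ⟨_, rfl⟩
  have hdn : d < n := by
    have : 1 * d ≤ k * d := Nat.mul_le_mul_right _ (by omega)
    omega
  have h1 : ¬ FreeOrderable F (CC n d) := by
    rw [← hD]
    rw [hn]
    exact CC_not_colorable k d hk (by omega)
  have h2 : ¬ ∀ P ∈ F, ¬ Occurs P (CC n d) (finCongr (by simp)) := fun hcon => h1 ⟨_, hcon⟩
  push Not at h2
  obtain ⟨P, hP, φ, hφ, hφadj, hφc⟩ := h2
  -- a vertex outside of the copy
  obtain ⟨x, hx⟩ : ∃ x : Fin n, ∀ v, φ v ≠ x := by
    by_contra hcon
    push Not at hcon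
    have h3 : Fintype.card (Fin n) ≤ Fintype.card P.V := Fintype.card_le_of_surjective φ hcon
    rw [Fintype.card_fin] at h3
    have := hm P hP
    omega
  have hx' : ∀ v, (φ v).1 ≠ x.1 := fun v h => hx v (Fin.ext h)
  have hxn := x.2
  have hφn : ∀ v, (φ v).1 < n := fun v => (φ v).2
  let pos : P.V → ℕ := fun v => if x.1 < (φ v).1 then (φ v).1 - x.1 else (φ v).1 + n - x.1
  have hpos1 : ∀ v, 1 ≤ pos v ∧ pos v < n := by
    intro v
    have h3 := hx' v
    have h4 := hφn v
    simp only [pos]
    split_ifs <;> omega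
  have hposinj : Function.Injective pos := by
    intro u v huv
    apply hφ
    apply Fin.ext
    have h3 := hx' u
    have h4 := hx' v
    have h5 := hφn u
    have h6 := hφn v
    simp only [pos] at huv
    split_ifs at huv <;> omega
  have hcyc : ∀ u v w, Cyc (φ u) (φ v) (φ w) ↔ Cyc (pos u) (pos v) (pos w) := by
    intro u v w
    have h3 := hx' u
    have h4 := hx' v
    have h5 := hx' w
    have h6 := hφn u
    have h7 := hφn v
    have h8 := hφn w
    simp only [pos, Cyc]
    split_ifs <;> omega
  obtain ⟨A, hA, G', hG', hocc⟩ := occurs_of_arcs k (by omega) P.V P.G n (by omega) pos hposinj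
    (fun v => (hpos1 v).2) (fun v => (pos v - 1) / d)
    (by
      intro v
      have := hpos1 v
      rw [Nat.div_lt_iff_lt_mul (by omega)]
      omega)
    (by
      intro u v huv
      exact Nat.div_le_div_right (by omega))
    (by
      intro u v huv he
      have h3 := (hφadj u v).1 huv
      have h4 := Nat.div_add_mod (pos u - 1) d
      have h5 := Nat.div_add_mod (pos v - 1) d
      have h6 := Nat.mod_lt (pos u - 1) (show d > 0 by omega)
      have h7 := Nat.mod_lt (pos v - 1) (show d > 0 by omega)
      have h8 := hpos1 u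
      have h9 := hpos1 v
      have h10 := hx' u
      have h11 := hx' v
      have h12 := hφn u
      have h13 := hφn v
      rw [he] at h4
      simp only [CC] at h3
      simp only [pos] at h4 h5 h6 h7 h8 h9
      split_ifs at h4 h5 h6 h7 h8 h9 <;> omega)
  obtain ⟨c, hc⟩ := (hD A G').1 hG'
  refine hc P hP ?_
  obtain ⟨w, hw, hwadj, hwlt⟩ := hocc c
  refine ⟨w, hw, hwadj, ?_⟩
  have hiff : ∀ u v, (c (w u) : ℕ) < c (w v) ↔ pos u < pos v := by
    intro u v
    constructor
    · intro h
      by_contra hcon
      rcases Nat.lt_or_ge (pos v) (pos u) with h3 | h3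
      · have := hwlt v u h3
        rw [Fin.lt_def] at this
        omega
      · have : u = v := hposinj (by omega)
        rw [this] at h
        omega
    · intro h
      exact hwlt u v h
  intro u v z
  rw [hφc]
  have h3 := hcyc u v z
  unfold Cyc at h3 ⊢
  rw [hiff, hiff, hiff]
  exact h3

/-- the circularly ordered graph on two adjacent vertices -/
def P₂ : COGraph := ⟨Fin 2, inferInstance, ⊤, finCongr (by simp)⟩

theorem describes_one : Describes {P₂} 1 := by
  classical
  intro V _ G
  constructor
  · rintro ⟨f⟩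
    refine ⟨Fintype.equivFin V, ?_⟩
    rintro P hP ⟨φ, -, hadj, -⟩
    rw [Set.mem_singleton_iff] at hP
    subst hP
    have h1 : P₂.G.Adj (0 : Fin 2) (1 : Fin 2) := by
      show (⊤ : SimpleGraph (Fin 2)).Adj 0 1
      simp
    exact f.valid ((hadj _ _).1 h1) (Subsingleton.elim _ _)
  · rintro ⟨c, hc⟩
    refine ⟨SimpleGraph.Coloring.mk (fun _ => 0) ?_⟩
    intro u v huv
    exfalso
    refine hc P₂ rfl ⟨fun i : Fin 2 => if i = 0 then u else v, ?_, ?_, ?_⟩
    · have hne := huv.ne
      intro i j hij
      change Fin 2 at i j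
      fin_cases i <;> fin_cases j <;> first | rfl | (simp at hij; simp_all)
    · have hne := huv.ne
      intro i j
      change Fin 2 at i j
      show (⊤ : SimpleGraph (Fin 2)).Adj i j ↔ _
      fin_cases i <;> fin_cases j <;> simp [huv, huv.symm]
    · intro i j l
      change Fin 2 at i j l
      have h1 : ∀ i : Fin 2, ((P₂.c i : Fin _) : ℕ) = i := fun i => rfl
      unfold Cyc
      rw [h1, h1, h1]
      fin_cases i <;> fin_cases j <;> fin_cases l <;> simp <;> omega

/-- **Theorem.** For a positive integer `k`, the class of `k`-colourable graphs is described by a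
finite set of circularly ordered graphs if and only if `k = 1`. -/
theorem result : ∀ k : ℕ, 1 ≤ k → ((∃ F : Set COGraph, F.Finite ∧ Describes F k) ↔ k = 1) := by
  intro k hk
  constructor
  · rintro ⟨F, hF, hD⟩
    by_contra hne
    exact not_describes k (by omega) F hF hD
  · rintro rfl
    exact ⟨{P₂}, Set.finite_singleton _, describes_one⟩

end Pool.Agent.Results.MP_c7ad22_co.OnlyOneColour
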